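import Pool.Agent.V1170.Spread

set_option autoImplicit false

namespace Pool.Agent.Results.MP_31cf8f_co.BelowCurve

open Pool.Agent.V1170.Spread

/-- There is a balanced digraph whose pair of algebraic connectivities `x = α(Γ)`, `y = α(Γᶜ)` lies
strictly below the quartic curve, with `x ≠ 0`, `y ≠ 0`, `x ≤ 1`, `y ≤ 1`. -/
theorem result : ∃ (n : ℕ) (E : Fin n → Fin n → Prop), 2 ≤ n ∧ IsBalancedDigraph E ∧
    alpha E ≠ 0 ∧ alpha (complD E) ≠ 0 ∧ alpha E ≤ 1 ∧ alpha (complD E) ≤ 1 ∧
    alpha E * alpha (complD E) * (2 - alpha E * alpha (complD E))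
      < n * (1 - alpha E) * (1 - alpha (complD E)) * (n - 2 - alpha E - alpha (complD E)) :=
  main

end Pool.Agent.Results.MP_31cf8f_co.BelowCurve
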